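import Pool.Agent.Helper93.TS.Stmts

set_option autoImplicit false

namespace Pool.Agent.Helper93.TS

open Pool.Agent.Helper8.Kak
open MeasureTheory

/-- the coarse cell of a fine cell -/
def sub_cl {m : ℕ} (N : ℕ) (c : Fin m → ℤ) : Fin m → ℤ := fun k => c k / (N : ℤ)

theorem sub_box {m N : ℕ} (hN : 1 ≤ N) (v : Fin m → ℝ) (e : Fin m → ℤ)
    (h : sub_cl N (fun k => ⌊((N * N : ℕ) : ℝ) * v k⌋) = e) :
    v ∈ Set.Icc (fun k => (e k : ℝ) / N) ((fun k => (e k : ℝ) / N) + fun _ => 1 / (N : ℝ)) := by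
  have hNr : (0 : ℝ) < N := by exact_mod_cast hN
  have hNz : (0 : ℤ) < N := by exact_mod_cast hN
  have key : ∀ k, (N : ℤ) * e k ≤ ⌊((N * N : ℕ) : ℝ) * v k⌋ ∧
      ⌊((N * N : ℕ) : ℝ) * v k⌋ + 1 ≤ (N : ℤ) * (e k + 1) := by
    intro k
    have hk : ⌊((N * N : ℕ) : ℝ) * v k⌋ / (N : ℤ) = e k := congrFun h k
    have h1 := Int.mul_ediv_add_emod ⌊((N * N : ℕ) : ℝ) * v k⌋ (N : ℤ)
    have h2 := Int.emod_nonneg ⌊((N * N : ℕ) : ℝ) * v k⌋ hNz.ne'
    have h3 := Int.emod_lt_of_pos ⌊((N * N : ℕ) : ℝ) * v k⌋ hNz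
    rw [hk] at h1
    constructor
    · linarith
    · linarith
  constructor
  · intro k
    have h1 : ((N : ℤ) * e k : ℝ) ≤ ((N * N : ℕ) : ℝ) * v k := by
      have h2 : (((N : ℤ) * e k : ℤ) : ℝ) ≤ ((⌊((N * N : ℕ) : ℝ) * v k⌋ : ℤ) : ℝ) := by
        exact_mod_cast (key k).1
      have h3 := Int.floor_le (((N * N : ℕ) : ℝ) * v k)
      push_cast at h2 h3 ⊢
      linarith
    push_cast at h1
    rw [div_le_iff₀ hNr]
    have h4 : (N : ℝ) * (e k : ℝ) ≤ N * (v k * N) := by nlinarith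
    exact le_of_mul_le_mul_left h4 hNr
  · intro k
    simp only [Pi.add_apply]
    rw [← add_div, le_div_iff₀ hNr]
    have h2 : (((⌊((N * N : ℕ) : ℝ) * v k⌋ + 1 : ℤ)) : ℝ) ≤ (((N : ℤ) * (e k + 1) : ℤ) : ℝ) := by
      exact_mod_cast (key k).2
    have h3 := Int.lt_floor_add_one (((N * N : ℕ) : ℝ) * v k)
    push_cast at h2 h3
    have h4 : (N : ℝ) * (v k * N) ≤ N * ((e k : ℝ) + 1) := by nlinarith
    exact le_of_mul_le_mul_left h4 hNr

theorem sub_fine {m Q : ℕ} (hQ : 1 ≤ Q) (v : Fin m → ℝ) (c : Fin m → ℤ)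
    (h : (fun k => ⌊((Q : ℕ) : ℝ) * v k⌋) = c) :
    v ∈ Set.Icc (fun k => (c k : ℝ) / Q) ((fun k => (c k : ℝ) / Q) + fun _ => 1 / (Q : ℝ)) := by
  have hQr : (0 : ℝ) < Q := by exact_mod_cast hQ
  subst h
  constructor
  · intro k
    simp only
    rw [div_le_iff₀ hQr, mul_comm]
    exact Int.floor_le _
  · intro k
    simp only [Pi.add_apply]
    rw [← add_div, le_div_iff₀ hQr, mul_comm]
    exact (Int.lt_floor_add_one _).le

theorem st_SUB : ST_SUB := by
  classical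
  intro m N hN D F hF ν γ Bd τ hγ hBd hfine hcoarse hτ
  have hQ : 1 ≤ N * N := Nat.mul_pos hN hN
  set b : ℕ := ⌈Bd⌉₊ with hb
  have hb1 : Bd ≤ (b : ℝ) := Nat.le_ceil Bd
  have hb2 : (b : ℝ) ≤ Bd + 1 := (Nat.ceil_lt_add_one hBd.le).le
  let Fe : (Fin m → ℤ) → Finset (Fin m → ℤ) := fun e => F.filter (fun c => sub_cl N c = e)
  have hex : ∀ e, ∃ A ⊆ Fe e, A.card = min (Fe e).card b := fun e =>
    Finset.exists_subset_card_eq (min_le_left _ _)
  choose A hAsub hAcard using hex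
  have hAcl : ∀ e, ∀ c ∈ A e, c ∈ F ∧ sub_cl N c = e := by
    intro e c hc
    exact Finset.mem_filter.1 (hAsub e hc)
  set E : Finset (Fin m → ℤ) := F.image (sub_cl N) with hE
  set F' : Finset (Fin m → ℤ) := E.biUnion A with hF'
  have hcardF' : F'.card = ∑ e ∈ E, (A e).card := by
    rw [hF']
    refine Finset.card_biUnion ?_
    intro e _ e' _ hne
    refine Finset.disjoint_left.2 ?_
    intro c hc hc'
    exact hne ((hAcl e c hc).2.symm.trans (hAcl e' c hc').2)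
  refine ⟨F', ?_, ?_, ?_⟩
  · intro c hc
    obtain ⟨e, -, hce⟩ := Finset.mem_biUnion.1 hc
    exact (hAcl e c hce).1
  · -- the classes of the points of `D`
    let De : (Fin m → ℤ) → Set (Fin m → ℝ) := fun e =>
      {v | v ∈ D ∧ sub_cl N (fun k => ⌊((N * N : ℕ) : ℝ) * v k⌋) = e}
    have hD : D ⊆ ⋃ e ∈ E, De e := by
      intro v hv
      refine Set.mem_iUnion₂.2 ⟨sub_cl N (fun k => ⌊((N * N : ℕ) : ℝ) * v k⌋), ?_, hv, rfl⟩
      exact Finset.mem_image_of_mem _ (hF v hv)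
    have hDe : ∀ e, ν (De e) ≤ ENNReal.ofReal (((A e).card : ℝ) * γ) := by
      intro e
      by_cases hcase : (Fe e).card ≤ b
      · have hA : (A e).card = (Fe e).card := by rw [hAcard, min_eq_left hcase]
        rw [hA]
        have hsub : De e ⊆ ⋃ c ∈ Fe e, Set.Icc (fun k => (c k : ℝ) / (N * N : ℕ))
            ((fun k => (c k : ℝ) / (N * N : ℕ)) + fun _ => 1 / ((N * N : ℕ) : ℝ)) := by
          intro v hv
          refine Set.mem_iUnion₂.2 ⟨fun k => ⌊((N * N : ℕ) : ℝ) * v k⌋, ?_, ?_⟩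
          · exact Finset.mem_filter.2 ⟨hF v hv.1, hv.2⟩
          · exact sub_fine hQ v _ rfl
        calc ν (De e) ≤ _ := measure_mono hsub
          _ ≤ ∑ c ∈ Fe e, ν (Set.Icc (fun k => (c k : ℝ) / (N * N : ℕ))
            ((fun k => (c k : ℝ) / (N * N : ℕ)) + fun _ => 1 / ((N * N : ℕ) : ℝ))) :=
              measure_biUnion_finset_le _ _
          _ ≤ ∑ c ∈ Fe e, ENNReal.ofReal γ := Finset.sum_le_sum (fun c _ => hfine _)
          _ = _ := by
              rw [Finset.sum_const, nsmul_eq_mul, ENNReal.ofReal_mul (by positivity),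
                ENNReal.ofReal_natCast]
      · have hA : (A e).card = b := by rw [hAcard, min_eq_right (not_le.1 hcase).le]
        rw [hA]
        have hsub : De e ⊆ Set.Icc (fun k => (e k : ℝ) / N)
            ((fun k => (e k : ℝ) / N) + fun _ => 1 / (N : ℝ)) := by
          intro v hv
          exact sub_box hN v e hv.2
        calc ν (De e) ≤ _ := measure_mono hsub
          _ ≤ ENNReal.ofReal (Bd * γ) := hcoarse _
          _ ≤ _ := ENNReal.ofReal_le_ofReal (mul_le_mul_of_nonneg_right hb1 hγ.le)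
    have h1 : ENNReal.ofReal τ ≤ ENNReal.ofReal ((F'.card : ℝ) * γ) := by
      calc ENNReal.ofReal τ ≤ ν D := hτ
        _ ≤ ν (⋃ e ∈ E, De e) := measure_mono hD
        _ ≤ ∑ e ∈ E, ν (De e) := measure_biUnion_finset_le _ _
        _ ≤ ∑ e ∈ E, ENNReal.ofReal (((A e).card : ℝ) * γ) :=
            Finset.sum_le_sum (fun e _ => hDe e)
        _ = ENNReal.ofReal (∑ e ∈ E, ((A e).card : ℝ) * γ) :=
            (ENNReal.ofReal_sum_of_nonneg (fun e _ => by positivity)).symm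
        _ = _ := by
            rw [hcardF', ← Finset.sum_mul]
            push_cast
            rfl
    rw [ENNReal.ofReal_le_ofReal_iff (by positivity)] at h1
    rwa [div_le_iff₀ hγ]
  · intro c hc
    obtain ⟨e, -, hce⟩ := Finset.mem_biUnion.1 hc
    have hsub : F'.filter (fun c' => ∀ k, c' k / (N : ℤ) = c k / (N : ℤ)) ⊆ A e := by
      intro c' hc'
      obtain ⟨h1, h2⟩ := Finset.mem_filter.1 hc'
      obtain ⟨e', -, hce'⟩ := Finset.mem_biUnion.1 h1
      have h3 : sub_cl N c' = sub_cl N c := funext h2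
      have h4 : e' = e := (hAcl e' c' hce').2.symm.trans (h3.trans (hAcl e c hce).2)
      rw [← h4]
      exact hce'
    have h5 : ((F'.filter (fun c' => ∀ k, c' k / (N : ℤ) = c k / (N : ℤ))).card : ℝ) ≤ (b : ℝ) := by
      have h6 := Finset.card_le_card hsub
      have h7 : (A e).card ≤ b := by rw [hAcard]; exact min_le_right _ _
      exact_mod_cast h6.trans h7
    exact h5.trans hb2

end Pool.Agent.Helper93.TS
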